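import Pool.Agent.LKT.Stmts

/-! Squad LKT, row GPI: the three term relation. -/

set_option autoImplicit false

namespace Pool.Agent.LKT.H42

open Pool.Agent.LKT

/-- explicit determinant, by the first two rows -/
theorem d4_eq (p q r s : Fin 4 → ℝ) : d4 p q r s =
    (p 0 * q 1 - p 1 * q 0) * (r 2 * s 3 - r 3 * s 2)
    - (p 0 * q 2 - p 2 * q 0) * (r 1 * s 3 - r 3 * s 1)
    + (p 0 * q 3 - p 3 * q 0) * (r 1 * s 2 - r 2 * s 1)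
    + (p 1 * q 2 - p 2 * q 1) * (r 0 * s 3 - r 3 * s 0)
    - (p 1 * q 3 - p 3 * q 1) * (r 0 * s 2 - r 2 * s 0)
    + (p 2 * q 3 - p 3 * q 2) * (r 0 * s 1 - r 1 * s 0) := by
  unfold d4
  rw [Matrix.det_succ_row_zero]
  simp [Fin.sum_univ_succ, Matrix.det_fin_three, Fin.succAbove, Matrix.submatrix_apply]
  ring

theorem aux (A B C D E F a0 a1 a2 a3 b0 b1 b2 b3 c0 c1 c2 c3 d0 d1 d2 d3 : ℝ)
    (hP : A * F - B * E + C * D = 0) :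
    (A * (a2 * b3 - a3 * b2) - B * (a1 * b3 - a3 * b1) + C * (a1 * b2 - a2 * b1)
      + D * (a0 * b3 - a3 * b0) - E * (a0 * b2 - a2 * b0) + F * (a0 * b1 - a1 * b0)) *
    (A * (c2 * d3 - c3 * d2) - B * (c1 * d3 - c3 * d1) + C * (c1 * d2 - c2 * d1)
      + D * (c0 * d3 - c3 * d0) - E * (c0 * d2 - c2 * d0) + F * (c0 * d1 - c1 * d0))
    - (A * (a2 * c3 - a3 * c2) - B * (a1 * c3 - a3 * c1) + C * (a1 * c2 - a2 * c1)
      + D * (a0 * c3 - a3 * c0) - E * (a0 * c2 - a2 * c0) + F * (a0 * c1 - a1 * c0)) *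
    (A * (b2 * d3 - b3 * d2) - B * (b1 * d3 - b3 * d1) + C * (b1 * d2 - b2 * d1)
      + D * (b0 * d3 - b3 * d0) - E * (b0 * d2 - b2 * d0) + F * (b0 * d1 - b1 * d0))
    + (A * (a2 * d3 - a3 * d2) - B * (a1 * d3 - a3 * d1) + C * (a1 * d2 - a2 * d1)
      + D * (a0 * d3 - a3 * d0) - E * (a0 * d2 - a2 * d0) + F * (a0 * d1 - a1 * d0)) *
    (A * (b2 * c3 - b3 * c2) - B * (b1 * c3 - b3 * c1) + C * (b1 * c2 - b2 * c1)
      + D * (b0 * c3 - b3 * c0) - E * (b0 * c2 - b2 * c0) + F * (b0 * c1 - b1 * c0)) = 0 := by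
  have key : (A * (a2 * b3 - a3 * b2) - B * (a1 * b3 - a3 * b1) + C * (a1 * b2 - a2 * b1)
      + D * (a0 * b3 - a3 * b0) - E * (a0 * b2 - a2 * b0) + F * (a0 * b1 - a1 * b0)) *
    (A * (c2 * d3 - c3 * d2) - B * (c1 * d3 - c3 * d1) + C * (c1 * d2 - c2 * d1)
      + D * (c0 * d3 - c3 * d0) - E * (c0 * d2 - c2 * d0) + F * (c0 * d1 - c1 * d0))
    - (A * (a2 * c3 - a3 * c2) - B * (a1 * c3 - a3 * c1) + C * (a1 * c2 - a2 * c1)
      + D * (a0 * c3 - a3 * c0) - E * (a0 * c2 - a2 * c0) + F * (a0 * c1 - a1 * c0)) *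
    (A * (b2 * d3 - b3 * d2) - B * (b1 * d3 - b3 * d1) + C * (b1 * d2 - b2 * d1)
      + D * (b0 * d3 - b3 * d0) - E * (b0 * d2 - b2 * d0) + F * (b0 * d1 - b1 * d0))
    + (A * (a2 * d3 - a3 * d2) - B * (a1 * d3 - a3 * d1) + C * (a1 * d2 - a2 * d1)
      + D * (a0 * d3 - a3 * d0) - E * (a0 * d2 - a2 * d0) + F * (a0 * d1 - a1 * d0)) *
    (A * (b2 * c3 - b3 * c2) - B * (b1 * c3 - b3 * c1) + C * (b1 * c2 - b2 * c1)
      + D * (b0 * c3 - b3 * c0) - E * (b0 * c2 - b2 * c0) + F * (b0 * c1 - b1 * c0)) =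
    (A * F - B * E + C * D) *
      ((a0 * b1 - a1 * b0) * (c2 * d3 - c3 * d2) - (a0 * b2 - a2 * b0) * (c1 * d3 - c3 * d1)
      + (a0 * b3 - a3 * b0) * (c1 * d2 - c2 * d1) + (a1 * b2 - a2 * b1) * (c0 * d3 - c3 * d0)
      - (a1 * b3 - a3 * b1) * (c0 * d2 - c2 * d0) + (a2 * b3 - a3 * b2) * (c0 * d1 - c1 * d0)) := by
    ring
  rw [key, hP, zero_mul]

theorem gpi : GpiStmt := by
  intro a b c d e f
  simp only [d4_eq]
  exact aux _ _ _ _ _ _ (c 0) (c 1) (c 2) (c 3) (d 0) (d 1) (d 2) (d 3) (e 0) (e 1) (e 2) (e 3)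
    (f 0) (f 1) (f 2) (f 3) (by ring)

end Pool.Agent.LKT.H42
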